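import Pool.Agent.H22.AN.TB3
import Pool.Agent.H80.AN.TargetsA
import Pool.Agent.H35.SN.POH

/-! MP_2697e3_an, all dimensions, row CAC: Caccioppoli inequality. -/

set_option autoImplicit false

namespace Pool.Agent.H26.AN

open MeasureTheory Metric Set Filter Topology Pool.Agent.H87.SN Pool.Agent.H87.SH Pool.Agent.H87.AX
open Pool.Agent.H22.AN Pool.Agent.H35.SN
open scoped ContDiff RealInnerProductSpace ENNReal

/-- the derivative of the smooth transition is bounded -/
theorem st_bd : ∃ D : ℝ, 0 ≤ D ∧ ∀ s : ℝ, |deriv Real.smoothTransition s| ≤ D := by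
  have hc : Continuous (deriv Real.smoothTransition) :=
    (Real.smoothTransition.contDiff (n := 1)).continuous_deriv le_rfl
  obtain ⟨K, hK⟩ := (isCompact_Icc (a := (0 : ℝ)) (b := 1)).exists_bound_of_continuousOn
    hc.continuousOn
  refine ⟨max K 0, le_max_right _ _, fun s => ?_⟩
  rcases lt_or_ge s 0 with h | h
  · have h1 : Real.smoothTransition =ᶠ[𝓝 s] fun _ => (0 : ℝ) := by
      filter_upwards [Iio_mem_nhds h] with y hy
      exact Real.smoothTransition.zero_of_nonpos (le_of_lt hy)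
    rw [h1.deriv_eq, deriv_const, abs_zero]
    exact le_max_right _ _
  rcases lt_or_ge 1 s with h' | h'
  · have h1 : Real.smoothTransition =ᶠ[𝓝 s] fun _ => (1 : ℝ) := by
      filter_upwards [Ioi_mem_nhds h'] with y hy
      exact Real.smoothTransition.one_of_one_le (le_of_lt hy)
    rw [h1.deriv_eq, deriv_const, abs_zero]
    exact le_max_right _ _
  · have := hK s ⟨h, h'⟩
    rw [Real.norm_eq_abs] at this
    exact this.trans (le_max_left _ _)

/-- the cutoff -/
noncomputable def zt {n : ℕ} (r R : ℝ) (x : E n) : ℝ :=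
  Real.smoothTransition ((R ^ 2 - ‖x‖ ^ 2) / (R ^ 2 - r ^ 2))

/-- its derivative, up to a factor -/
noncomputable def kt {n : ℕ} (r R : ℝ) (x : E n) : ℝ :=
  4 * deriv Real.smoothTransition ((R ^ 2 - ‖x‖ ^ 2) / (R ^ 2 - r ^ 2)) / (R ^ 2 - r ^ 2)

theorem zt_fderiv {n : ℕ} (r R : ℝ) (x v : E n) :
    fderiv ℝ (fun y : E n => zt r R y ^ 2) x v = - (zt r R x * kt r R x) * ⟪x, v⟫ := by
  have h1 : HasFDerivAt (fun y : E n => (R ^ 2 - ‖y‖ ^ 2) / (R ^ 2 - r ^ 2))
      ((R ^ 2 - r ^ 2)⁻¹ • (- ((2 : ℝ) • innerSL ℝ x))) x := by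
    have h2 : HasFDerivAt (fun y : E n => ‖y‖ ^ 2) ((2 : ℝ) • innerSL ℝ x) x := by
      refine (hasStrictFDerivAt_norm_sq x).hasFDerivAt.congr_fderiv ?_
      rw [two_smul, two_smul]
    have h3 := (h2.const_sub (R ^ 2)).const_mul ((R ^ 2 - r ^ 2)⁻¹)
    refine h3.congr_of_eventuallyEq (Eventually.of_forall fun y => ?_)
    simp only [div_eq_inv_mul]
  have h4 : HasDerivAt (fun s : ℝ => Real.smoothTransition s ^ 2)
      (2 * Real.smoothTransition ((R ^ 2 - ‖x‖ ^ 2) / (R ^ 2 - r ^ 2)) *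
        deriv Real.smoothTransition ((R ^ 2 - ‖x‖ ^ 2) / (R ^ 2 - r ^ 2)))
      ((R ^ 2 - ‖x‖ ^ 2) / (R ^ 2 - r ^ 2)) := by
    have h5 : HasDerivAt Real.smoothTransition
        (deriv Real.smoothTransition ((R ^ 2 - ‖x‖ ^ 2) / (R ^ 2 - r ^ 2)))
        ((R ^ 2 - ‖x‖ ^ 2) / (R ^ 2 - r ^ 2)) :=
      ((Real.smoothTransition.contDiff (n := 1)).differentiable one_ne_zero _).hasDerivAt
    refine (h5.fun_pow 2).congr_deriv ?_
    simp
  have h7 := (h4.comp_hasFDerivAt x h1).fderiv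
  have h8 : fderiv ℝ (fun y : E n => zt r R y ^ 2) x =
      (2 * Real.smoothTransition ((R ^ 2 - ‖x‖ ^ 2) / (R ^ 2 - r ^ 2)) *
        deriv Real.smoothTransition ((R ^ 2 - ‖x‖ ^ 2) / (R ^ 2 - r ^ 2))) •
        ((R ^ 2 - r ^ 2)⁻¹ • (- ((2 : ℝ) • innerSL ℝ x))) := h7
  rw [h8]
  simp only [smul_apply, neg_apply, innerSL_apply_apply,
    smul_eq_mul, zt, kt]
  ring

theorem zt_contDiff {n : ℕ} (r R : ℝ) : ContDiff ℝ 1 (fun y : E n => zt r R y ^ 2) := by
  have h1 : ContDiff ℝ 1 (fun y : E n => (R ^ 2 - ‖y‖ ^ 2) / (R ^ 2 - r ^ 2)) :=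
    (contDiff_const.sub (contDiff_norm_sq ℝ)).div_const _
  exact ((Real.smoothTransition.contDiff (n := 1)).comp h1).pow 2

theorem inner_Pm {d : ℕ} (x : E (d + 2)) : ⟪x, Pm d x⟫ = rho x ^ 2 := by
  have h := map_Pm (innerSL ℝ x) x
  have hb : ∀ i : Fin (d + 2), ⟪x, bv i⟫ = x i := fun i => by
    simp [bv, EuclideanSpace.inner_single_right]
  simp only [innerSL_apply_apply, smul_eq_mul, hb] at h
  rw [h]
  unfold rho
  rw [Real.sq_sqrt (by positivity)]
  ring

theorem inner_Jm {d : ℕ} (x : E (d + 2)) : ⟪x, Jm d x⟫ = 0 := by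
  have h := map_Jm (innerSL ℝ x) x
  have hb : ∀ i : Fin (d + 2), ⟪x, bv i⟫ = x i := fun i => by
    simp [bv, EuclideanSpace.inner_single_right]
  simp only [innerSL_apply_apply, smul_eq_mul, hb] at h
  rw [h]
  ring

theorem zsq_le {d : ℕ} (x : E (d + 2)) : ∑ i : Fin d, (x i.succ.succ) ^ 2 ≤ ‖x‖ ^ 2 := by
  rw [norm_sq_sum, Fin.sum_univ_succ, Fin.sum_univ_succ]
  nlinarith [sq_nonneg (x 0), sq_nonneg (x (Fin.succ 0))]

/-- the pointwise inequality -/
theorem cac_pw {d m : ℕ} (hLA1 : T_LA1) (hLA3 : T_LA3) (T : E (d + 2) →L[ℝ] E m) (x : E (d + 2))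
    (z k : ℝ) (hx : ‖x‖ ^ 2 ≤ 9 / 4) :
    z ^ 2 * nzs T ≤ ((2 * z ^ 2 - z * k * rho x ^ 2) * nzs T +
      z * k * rho x ^ 2 * ((rho x ^ 2)⁻¹ * ‖T (Pm d x)‖ ^ 2) -
      z * k * rho x ^ 2 * ((rho x ^ 2)⁻¹ * ‖T (Jm d x)‖ ^ 2) -
      2 * ∑ i : Fin d, (- (z * k) * x i.succ.succ) * ⟪T (bv i.succ.succ), T (Pm d x)⟫) +
      (|z * k| + 9 / 4 * k ^ 2) * (rho x ^ 2 * nsq T) := by
  have hl := hLA1 d m T x
  have hP : rho x ^ 2 * ((rho x ^ 2)⁻¹ * ‖T (Pm d x)‖ ^ 2) = ‖T (Pm d x)‖ ^ 2 := by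
    by_cases h : rho x = 0
    · have h1 := (hLA3.1 _ _ T (Pm d x))
      have h2 : ‖T (Pm d x)‖ ^ 2 ≤ rho x ^ 2 * nsq T := by
        nlinarith [hl, sq_nonneg (‖T (Jm d x)‖), nzs_nonneg T, sq_nonneg (rho x),
          mul_nonneg (sq_nonneg (rho x)) (nzs_nonneg T)]
      rw [h] at h2 ⊢
      have h3 : ‖T (Pm d x)‖ ^ 2 = 0 := le_antisymm (by simpa using h2) (sq_nonneg _)
      rw [h3]
      ring
    · rw [← mul_assoc, mul_inv_cancel₀ (pow_ne_zero 2 h), one_mul]
  have hJ : rho x ^ 2 * ((rho x ^ 2)⁻¹ * ‖T (Jm d x)‖ ^ 2) = ‖T (Jm d x)‖ ^ 2 := by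
    by_cases h : rho x = 0
    · have h2 : ‖T (Jm d x)‖ ^ 2 ≤ rho x ^ 2 * nsq T := by
        nlinarith [hl, sq_nonneg (‖T (Pm d x)‖), nzs_nonneg T, sq_nonneg (rho x),
          mul_nonneg (sq_nonneg (rho x)) (nzs_nonneg T)]
      rw [h] at h2 ⊢
      have h3 : ‖T (Jm d x)‖ ^ 2 = 0 := le_antisymm (by simpa using h2) (sq_nonneg _)
      rw [h3]
      ring
    · rw [← mul_assoc, mul_inv_cancel₀ (pow_ne_zero 2 h), one_mul]
  have hs : ∑ i : Fin d, (- (z * k) * x i.succ.succ) * ⟪T (bv i.succ.succ), T (Pm d x)⟫ =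
      - (z * k) * ⟪∑ i : Fin d, x i.succ.succ • T (bv i.succ.succ), T (Pm d x)⟫ := by
    rw [sum_inner, Finset.mul_sum]
    refine Finset.sum_congr rfl fun i _ => ?_
    rw [real_inner_smul_left]
    ring
  have h1 := hLA3.2 d m T (fun i => x i.succ.succ)
  have h2 := zsq_le x
  set a := ‖∑ i : Fin d, x i.succ.succ • T (bv i.succ.succ)‖ with ha
  set b := ‖T (Pm d x)‖ with hb
  have hin := abs_real_inner_le_norm (∑ i : Fin d, x i.succ.succ • T (bv i.succ.succ)) (T (Pm d x))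
  rw [← ha, ← hb] at hin
  have hz := nzs_nonneg T
  have hn := nsq_nonneg T
  have ha2 : a ^ 2 ≤ 9 / 4 * nzs T :=
    h1.trans (mul_le_mul_of_nonneg_right (h2.trans hx) hz)
  have hb2 : b ^ 2 ≤ rho x ^ 2 * nsq T := by
    nlinarith [hl, sq_nonneg (‖T (Jm d x)‖), mul_nonneg (sq_nonneg (rho x)) hz]
  have hc : |z * k| * (a * b) * 2 ≤ z ^ 2 * nzs T + 9 / 4 * k ^ 2 * (rho x ^ 2 * nsq T) := by
    have e1 : 2 * ((2 / 3 * |z| * a) * (3 / 2 * |k| * b)) ≤
        (2 / 3 * |z| * a) ^ 2 + (3 / 2 * |k| * b) ^ 2 := two_mul_le_add_sq _ _ |>.trans' (by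
          apply le_of_eq; ring)
    have e2 : (2 / 3 * |z| * a) ^ 2 ≤ z ^ 2 * nzs T := by
      have : (2 / 3 * |z| * a) ^ 2 = z ^ 2 * (4 / 9 * a ^ 2) := by
        rw [← sq_abs z]
        ring
      rw [this]
      exact mul_le_mul_of_nonneg_left (by linarith) (sq_nonneg z)
    have e3 : (3 / 2 * |k| * b) ^ 2 ≤ 9 / 4 * k ^ 2 * (rho x ^ 2 * nsq T) := by
      have : (3 / 2 * |k| * b) ^ 2 = 9 / 4 * k ^ 2 * b ^ 2 := by
        rw [← sq_abs k]
        ring
      rw [this]
      exact mul_le_mul_of_nonneg_left hb2 (by positivity)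
    rw [abs_mul]
    linarith
  have hd : |(z * k) * ⟪∑ i : Fin d, x i.succ.succ • T (bv i.succ.succ), T (Pm d x)⟫| ≤
      |z * k| * (a * b) := by
    rw [abs_mul]
    exact mul_le_mul_of_nonneg_left hin (abs_nonneg _)
  have hd1 := (abs_le.1 hd).1
  have he : z * k * (rho x ^ 2 * nzs T - b ^ 2 + ‖T (Jm d x)‖ ^ 2) ≤
      |z * k| * (rho x ^ 2 * nsq T) := by
    refine (le_abs_self _).trans ?_
    rw [abs_mul]
    refine mul_le_mul_of_nonneg_left ?_ (abs_nonneg _)
    rw [abs_le]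
    constructor <;> nlinarith [mul_nonneg (sq_nonneg (rho x)) hz, sq_nonneg b,
      sq_nonneg (‖T (Jm d x)‖)]
  have hPz : z * k * rho x ^ 2 * ((rho x ^ 2)⁻¹ * b ^ 2) = z * k * b ^ 2 := by
    rw [mul_assoc (z * k), hP]
  have hJz : z * k * rho x ^ 2 * ((rho x ^ 2)⁻¹ * ‖T (Jm d x)‖ ^ 2) =
      z * k * ‖T (Jm d x)‖ ^ 2 := by
    rw [mul_assoc (z * k), hJ]
  rw [hs, hPz, hJz]
  nlinarith [hc, hd1, he]

theorem pf_CAC (hPID : T_PID) (hLA1 : T_LA1) (hLA3 : T_LA3) (hMUF : T_MUF) : T_CAC := by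
  intro d
  obtain ⟨D, hD0, hD⟩ := st_bd
  refine ⟨10 * D + 144 * D ^ 2, by positivity, ?_⟩
  intro m G hG hst r R hr hrR hR
  have hRr : 0 < R ^ 2 - r ^ 2 := by nlinarith
  set f : E (d + 2) → ℝ := fun y => zt r R y ^ 2 with hf
  have hfx : ∀ x : E (d + 2), f x = zt r R x ^ 2 := fun _ => rfl
  have hfc : ContDiff ℝ 1 f := zt_contDiff r R
  have hz0 : ∀ x : E (d + 2), R ≤ ‖x‖ → zt r R x = 0 := by
    intro x hx
    apply Real.smoothTransition.zero_of_nonpos
    apply div_nonpos_of_nonpos_of_nonneg _ hRr.le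
    nlinarith [norm_nonneg x]
  have hz1 : ∀ x : E (d + 2), ‖x‖ ≤ r → zt r R x = 1 := by
    intro x hx
    apply Real.smoothTransition.one_of_one_le
    rw [le_div_iff₀ hRr]
    nlinarith [norm_nonneg x]
  have hzb : ∀ x : E (d + 2), 0 ≤ zt r R x ∧ zt r R x ≤ 1 := fun x =>
    ⟨Real.smoothTransition.nonneg _, Real.smoothTransition.le_one _⟩
  have hts : tsupport f ⊆ closedBall 0 R := by
    refine closure_minimal ?_ isClosed_closedBall
    intro x hx
    rw [mem_closedBall, dist_zero_right]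
    by_contra h
    exact hx (by simp [hf, hz0 x (le_of_lt (not_le.1 h))])
  have hts2 : tsupport f ⊆ ball 0 2 := hts.trans (closedBall_subset_ball (by linarith))
  have hcs : HasCompactSupport f := (isCompact_closedBall (0 : E (d + 2)) R).of_isClosed_subset
    (isClosed_tsupport f) hts
  have hfd : ∀ x v : E (d + 2), fderiv ℝ f x v = - (zt r R x * kt r R x) * ⟪x, v⟫ :=
    zt_fderiv r R
  have hpid := hPID d m G hG hst f hfc hcs hts2 (fun x => by rw [hfd, inner_Jm, mul_zero])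
  have hkap : ∀ x : E (d + 2), kap f x = zt r R x * kt r R x * rho x ^ 2 := by
    intro x
    unfold kap
    rw [hfd, inner_Pm]
    ring
  have hbv : ∀ (x : E (d + 2)) (i : Fin (d + 2)), ⟪x, bv i⟫ = x i := fun x i => by
    simp [bv, EuclideanSpace.inner_single_right]
  set I : E (d + 2) → ℝ := fun x => ((2 * f x - kap f x) * nzs (G x) +
      kap f x * ((rho x ^ 2)⁻¹ * ‖G x (Pm d x)‖ ^ 2) -
      kap f x * ((rho x ^ 2)⁻¹ * ‖G x (Jm d x)‖ ^ 2) -
      2 * ∑ i : Fin d, fderiv ℝ f x (bv i.succ.succ) * ⟪G x (bv i.succ.succ), G x (Pm d x)⟫) with hI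
  have hpid' : ∫ x in ball (0 : E (d + 2)) 2, I x = 0 := hpid
  set K : ℝ := (10 * D + 144 * D ^ 2) / (R - r) ^ 2 with hK
  have hkb : ∀ x : E (d + 2), |kt r R x| ≤ 8 * D / (R - r) := by
    intro x
    unfold kt
    rw [abs_div, abs_mul, abs_of_pos hRr, div_le_div_iff₀ hRr (by linarith)]
    have h1 := hD ((R ^ 2 - ‖x‖ ^ 2) / (R ^ 2 - r ^ 2))
    have h2 : |(4 : ℝ)| = 4 := by norm_num
    rw [h2]
    have h3 : (R - r) / 2 ≤ R ^ 2 - r ^ 2 := by nlinarith
    nlinarith [abs_nonneg (deriv Real.smoothTransition ((R ^ 2 - ‖x‖ ^ 2) / (R ^ 2 - r ^ 2))),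
      mul_nonneg hD0 (sub_nonneg.2 h3)]
  have hKb : ∀ x : E (d + 2), |zt r R x * kt r R x| + 9 / 4 * kt r R x ^ 2 ≤ K := by
    intro x
    have h1 := hkb x
    have h2 := hzb x
    have h3 : |zt r R x * kt r R x| ≤ |kt r R x| := by
      rw [abs_mul, abs_of_nonneg h2.1]
      exact mul_le_of_le_one_left (abs_nonneg _) h2.2
    have h4 : 0 < R - r := by linarith
    have h5 : kt r R x ^ 2 ≤ (8 * D / (R - r)) ^ 2 := by
      rw [← sq_abs]
      exact pow_le_pow_left₀ (abs_nonneg _) h1 2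
    have h6 : K = 10 * D / (R - r) ^ 2 + 9 / 4 * (8 * D / (R - r)) ^ 2 := by
      rw [hK]
      field_simp
      ring
    have h7 : 8 * D / (R - r) ≤ 10 * D / (R - r) ^ 2 := by
      rw [div_le_div_iff₀ h4 (by positivity)]
      have : (R - r) ≤ 5 / 4 := by linarith
      nlinarith [mul_nonneg hD0 h4.le, mul_nonneg (mul_nonneg hD0 h4.le) (sub_nonneg.2 this)]
    rw [h6]
    linarith
  -- pointwise inequality
  have hpw : ∀ x : E (d + 2), f x * nzs (G x) - I x ≤
      (ball (0 : E (d + 2)) R).indicator (fun x => K * (rho x ^ 2 * nsq (G x))) x := by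
    intro x
    by_cases hx : x ∈ ball (0 : E (d + 2)) R
    · rw [indicator_of_mem hx]
      rw [mem_ball, dist_zero_right] at hx
      have hx2 : ‖x‖ ^ 2 ≤ 9 / 4 := by nlinarith [norm_nonneg x]
      have h := cac_pw hLA1 hLA3 (G x) x (zt r R x) (kt r R x) hx2
      have hI' : I x = ((2 * zt r R x ^ 2 - zt r R x * kt r R x * rho x ^ 2) * nzs (G x) +
          zt r R x * kt r R x * rho x ^ 2 * ((rho x ^ 2)⁻¹ * ‖G x (Pm d x)‖ ^ 2) -
          zt r R x * kt r R x * rho x ^ 2 * ((rho x ^ 2)⁻¹ * ‖G x (Jm d x)‖ ^ 2) -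
          2 * ∑ i : Fin d, (- (zt r R x * kt r R x) * x i.succ.succ) *
            ⟪G x (bv i.succ.succ), G x (Pm d x)⟫) := by
        simp only [hI, hkap, hfd, hbv, hfx]
      rw [← hI'] at h
      have h2 : (|zt r R x * kt r R x| + 9 / 4 * kt r R x ^ 2) * (rho x ^ 2 * nsq (G x)) ≤
          K * (rho x ^ 2 * nsq (G x)) :=
        mul_le_mul_of_nonneg_right (hKb x) (mul_nonneg (sq_nonneg _) (nsq_nonneg _))
      show zt r R x ^ 2 * nzs (G x) - I x ≤ K * (rho x ^ 2 * nsq (G x))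
      linarith
    · rw [indicator_of_notMem hx]
      rw [mem_ball, dist_zero_right, not_lt] at hx
      have h0 := hz0 x hx
      have hI' : I x = 0 := by
        simp only [hI, hkap, hfd, hfx, h0]
        simp
      rw [hI']
      show zt r R x ^ 2 * nzs (G x) - 0 ≤ 0
      rw [h0]
      simp
  -- integrability
  have hfcont : Continuous f := hfc.continuous
  have hff : Continuous (fun x => fderiv ℝ f x) := hfc.continuous_fderiv one_ne_zero
  have hkc : Continuous (fun x => kap f x) := by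
    unfold kap
    exact (hff.clm_apply (Pm d).continuous).neg
  have hGm := hG.1
  have hnz : AEStronglyMeasurable (fun x => nzs (G x))
      (volume.restrict (ball (0 : E (d + 2)) 2)) := cont_nzs.comp_aestronglyMeasurable hGm
  have hfz : Integrable (fun x => f x * nzs (G x)) (volume.restrict (ball (0 : E (d + 2)) 2)) := by
    refine int_of_le hG _ 1 (hfcont.aestronglyMeasurable.mul hnz) fun x _ => ?_
    have h1 := nzs_nonneg (G x)
    have h2 := hzb x
    have h3 := split_le hLA1 (G x) x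
    have h4 : 0 ≤ (rho x ^ 2)⁻¹ * ‖G x (Pm d x)‖ ^ 2 := by positivity
    have h5 : 0 ≤ (rho x ^ 2)⁻¹ * ‖G x (Jm d x)‖ ^ 2 := by positivity
    have h6 : zt r R x ^ 2 ≤ 1 := pow_le_one₀ h2.1 h2.2
    rw [abs_of_nonneg (mul_nonneg (sq_nonneg _) h1), one_mul]
    have : f x * nzs (G x) ≤ 1 * nzs (G x) := mul_le_mul_of_nonneg_right h6 h1
    linarith
  have hIi : Integrable I (volume.restrict (ball (0 : E (d + 2)) 2)) := by
    obtain ⟨K1, hK1⟩ := bd_ball f hfcont
    obtain ⟨K2, hK2⟩ := bd_ball (fun x => kap f x) hkc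
    obtain ⟨K3, hK3⟩ := bd_ball (fun x => ∑ i : Fin d, |fderiv ℝ f x (bv i.succ.succ)|)
      (continuous_finsetSum _ fun i _ => (hff.clm_apply continuous_const).abs)
    refine int_of_le hG _ (2 * |K1| + 3 * |K2| + 5 * |K3|) ?_ fun x hx => ?_
    · have m1 : AEStronglyMeasurable (fun x => (2 * f x - kap f x) * nzs (G x))
          (volume.restrict (ball (0 : E (d + 2)) 2)) :=
        (((continuous_const.mul hfcont).sub hkc).aestronglyMeasurable).mul hnz
      have m2 : AEStronglyMeasurable (fun x => kap f x * ((rho x ^ 2)⁻¹ * ‖G x (Pm d x)‖ ^ 2))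
          (volume.restrict (ball (0 : E (d + 2)) 2)) :=
        hkc.aestronglyMeasurable.mul ((rho_meas _).mul (app_meas hGm _ (Pm d).continuous))
      have m3 : AEStronglyMeasurable (fun x => kap f x * ((rho x ^ 2)⁻¹ * ‖G x (Jm d x)‖ ^ 2))
          (volume.restrict (ball (0 : E (d + 2)) 2)) :=
        hkc.aestronglyMeasurable.mul ((rho_meas _).mul (app_meas hGm _ (Jm d).continuous))
      have m4 : ∀ i : Fin d, AEStronglyMeasurable (fun x => fderiv ℝ f x (bv i.succ.succ) *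
          ⟪G x (bv i.succ.succ), G x (Pm d x)⟫) (volume.restrict (ball (0 : E (d + 2)) 2)) := by
        intro i
        refine (hff.clm_apply continuous_const).aestronglyMeasurable.mul ?_
        have h0 : Continuous (fun p : (E (d + 2) →L[ℝ] E m) × E (d + 2) =>
            ⟪p.1 (bv i.succ.succ), p.1 (Pm d p.2)⟫) :=
          (continuous_fst.clm_apply continuous_const).inner
            (continuous_fst.clm_apply ((Pm d).continuous.comp continuous_snd))
        have h2 : AEStronglyMeasurable (fun x : E (d + 2) => x)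
            (volume.restrict (ball (0 : E (d + 2)) 2)) := continuous_id.aestronglyMeasurable
        have h := Continuous.comp_aestronglyMeasurable (f := fun x => (G x, x)) h0 (hGm.prodMk h2)
        exact h
      have m5 : AEStronglyMeasurable (fun x => 2 * ∑ i : Fin d, fderiv ℝ f x (bv i.succ.succ) *
          ⟪G x (bv i.succ.succ), G x (Pm d x)⟫) (volume.restrict (ball (0 : E (d + 2)) 2)) := by
        refine AEStronglyMeasurable.const_mul ?_ 2
        exact Finset.aestronglyMeasurable_fun_sum _ fun i _ => m4 i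
      exact ((m1.add m2).sub m3).sub m5
    · have k1 := (hK1 x hx).trans (le_abs_self K1)
      have k2 := (hK2 x hx).trans (le_abs_self K2)
      have k3 := (hK3 x hx).trans (le_abs_self K3)
      rw [abs_of_nonneg (Finset.sum_nonneg fun _ _ => abs_nonneg _)] at k3
      have h1 := nzs_nonneg (G x)
      have hn := nsq_nonneg (G x)
      have h3 := split_le hLA1 (G x) x
      have h4 : 0 ≤ (rho x ^ 2)⁻¹ * ‖G x (Pm d x)‖ ^ 2 := by positivity
      have h5 : 0 ≤ (rho x ^ 2)⁻¹ * ‖G x (Jm d x)‖ ^ 2 := by positivity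
      have hl := hLA1 d m (G x) x
      have hrx : rho x ^ 2 ≤ 4 := by
        have h6 := norm_sq_sum x
        rw [Fin.sum_univ_succ, Fin.sum_univ_succ] at h6
        have h7 : rho x ^ 2 = x 0 ^ 2 + x 1 ^ 2 := by
          unfold rho
          rw [Real.sq_sqrt (by positivity)]
        have h8 : 0 ≤ ∑ i : Fin d, x i.succ.succ ^ 2 := Finset.sum_nonneg fun _ _ => sq_nonneg _
        rw [mem_ball, dist_zero_right] at hx
        have h9 : x (Fin.succ 0) = x 1 := rfl
        rw [h9] at h6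
        nlinarith [norm_nonneg x]
      have hP2 : ‖G x (Pm d x)‖ ^ 2 ≤ 4 * nsq (G x) := by
        nlinarith [hl, sq_nonneg (‖G x (Jm d x)‖), mul_nonneg (sq_nonneg (rho x)) h1,
          mul_le_mul_of_nonneg_right hrx hn]
      have c1 : |(2 * f x - kap f x) * nzs (G x)| ≤ (2 * |K1| + |K2|) * nsq (G x) := by
        rw [abs_mul, abs_of_nonneg h1]
        have : |2 * f x - kap f x| ≤ 2 * |K1| + |K2| := by
          refine (abs_sub _ _).trans ?_
          rw [abs_mul]
          have : |(2 : ℝ)| = 2 := by norm_num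
          rw [this]
          linarith
        exact mul_le_mul this (by linarith) h1 (by positivity)
      have c2 : |kap f x * ((rho x ^ 2)⁻¹ * ‖G x (Pm d x)‖ ^ 2)| ≤ |K2| * nsq (G x) := by
        rw [abs_mul, abs_of_nonneg h4]
        exact mul_le_mul k2 (by linarith) h4 (by positivity)
      have c3 : |kap f x * ((rho x ^ 2)⁻¹ * ‖G x (Jm d x)‖ ^ 2)| ≤ |K2| * nsq (G x) := by
        rw [abs_mul, abs_of_nonneg h5]
        exact mul_le_mul k2 (by linarith) h5 (by positivity)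
      have c4 : |2 * ∑ i : Fin d, fderiv ℝ f x (bv i.succ.succ) *
          ⟪G x (bv i.succ.succ), G x (Pm d x)⟫| ≤ 5 * |K3| * nsq (G x) := by
        have e1 : ∀ i : Fin d, |fderiv ℝ f x (bv i.succ.succ) *
            ⟪G x (bv i.succ.succ), G x (Pm d x)⟫| ≤
            |fderiv ℝ f x (bv i.succ.succ)| * (5 / 2 * nsq (G x)) := by
          intro i
          rw [abs_mul]
          refine mul_le_mul_of_nonneg_left ?_ (abs_nonneg _)
          have e2 := abs_real_inner_le_norm (G x (bv i.succ.succ)) (G x (Pm d x))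
          have e3 : ‖G x (bv i.succ.succ)‖ ^ 2 ≤ nsq (G x) :=
            Finset.single_le_sum (f := fun k : Fin (d + 2) => ‖G x (bv k)‖ ^ 2)
              (fun _ _ => sq_nonneg _) (Finset.mem_univ i.succ.succ)
          nlinarith [sq_nonneg (‖G x (bv i.succ.succ)‖ - ‖G x (Pm d x)‖)]
        rw [abs_mul]
        have : |(2 : ℝ)| = 2 := by norm_num
        rw [this]
        calc 2 * |∑ i : Fin d, fderiv ℝ f x (bv i.succ.succ) *
              ⟪G x (bv i.succ.succ), G x (Pm d x)⟫| ≤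
            2 * ∑ i : Fin d, |fderiv ℝ f x (bv i.succ.succ)| * (5 / 2 * nsq (G x)) :=
              mul_le_mul_of_nonneg_left ((Finset.abs_sum_le_sum_abs _ _).trans
                (Finset.sum_le_sum fun i _ => e1 i)) (by norm_num)
          _ = (∑ i : Fin d, |fderiv ℝ f x (bv i.succ.succ)|) * (5 * nsq (G x)) := by
              rw [← Finset.sum_mul]
              ring
          _ ≤ |K3| * (5 * nsq (G x)) := mul_le_mul_of_nonneg_right k3 (by positivity)
          _ = 5 * |K3| * nsq (G x) := by ring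
      have b1 := abs_le.1 c1
      have b2 := abs_le.1 c2
      have b3 := abs_le.1 c3
      have b4 := abs_le.1 c4
      rw [abs_le]
      simp only [hI]
      constructor
      · linarith [b1.1, b2.1, b3.2, b4.2]
      · linarith [b1.2, b2.2, b3.1, b4.1]
  obtain ⟨-, -, -, h4, h5, -⟩ := hMUF d m G hG
  have hRint : IntegrableOn (fun x => rho x ^ 2 * nsq (G x)) (ball (0 : E (d + 2)) R) := by
    refine (h5 (fun x => rho x ^ 2) (ball 0 R) 4 (cont_rho.pow 2).measurable measurableSet_ball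
      (ball_subset_ball (by linarith)) fun x hx => ⟨sq_nonneg _, ?_⟩).1
    have h6 := norm_sq_sum x
    rw [Fin.sum_univ_succ, Fin.sum_univ_succ] at h6
    have h7 : rho x ^ 2 = x 0 ^ 2 + x 1 ^ 2 := by
      unfold rho
      rw [Real.sq_sqrt (by positivity)]
    have h8 : 0 ≤ ∑ i : Fin d, x i.succ.succ ^ 2 := Finset.sum_nonneg fun _ _ => sq_nonneg _
    rw [mem_ball, dist_zero_right] at hx
    have h9 : x (Fin.succ 0) = x 1 := rfl
    rw [h9] at h6
    nlinarith [norm_nonneg x]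
  have hRr2 : (volume.restrict (ball (0 : E (d + 2)) 2)).restrict (ball (0 : E (d + 2)) R) =
      volume.restrict (ball (0 : E (d + 2)) R) := by
    rw [Measure.restrict_restrict measurableSet_ball,
      inter_eq_left.2 (ball_subset_ball (by linarith))]
  have hind : Integrable ((ball (0 : E (d + 2)) R).indicator
      (fun x => K * (rho x ^ 2 * nsq (G x)))) (volume.restrict (ball (0 : E (d + 2)) 2)) := by
    rw [integrable_indicator_iff measurableSet_ball, IntegrableOn, hRr2]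
    exact hRint.const_mul K
  have hmain : ∫ x in ball (0 : E (d + 2)) 2, f x * nzs (G x) ≤ K * V2 G R := by
    have e1 : ∫ x in ball (0 : E (d + 2)) 2, (f x * nzs (G x) - I x) ≤
        ∫ x in ball (0 : E (d + 2)) 2, (ball (0 : E (d + 2)) R).indicator
          (fun x => K * (rho x ^ 2 * nsq (G x))) x := integral_mono (hfz.sub hIi) hind hpw
    rw [integral_sub hfz hIi, hpid', sub_zero, integral_indicator measurableSet_ball, hRr2,
      integral_const_mul] at e1
    exact e1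
  refine le_trans ?_ hmain
  have e2 : ∫ x in ball (0 : E (d + 2)) r, nzs (G x) =
      ∫ x in ball (0 : E (d + 2)) r, f x * nzs (G x) := by
    refine setIntegral_congr_fun measurableSet_ball fun x hx => ?_
    rw [mem_ball, dist_zero_right] at hx
    show nzs (G x) = zt r R x ^ 2 * nzs (G x)
    rw [hz1 x hx.le]
    ring
  rw [e2]
  refine setIntegral_mono_set hfz ?_ (ball_subset_ball (by linarith)).eventuallyLE
  exact Eventually.of_forall fun x => mul_nonneg (sq_nonneg _) (nzs_nonneg _)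

end Pool.Agent.H26.AN
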