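import Pool.Agent.H22.AN.TB3
import Pool.Agent.H80.AN.TargetsA
import Pool.Agent.H35.SN.POH

/-! MP_2697e3_an, all dimensions, row CEN: masses and centroids of the windows. -/

set_option autoImplicit false

namespace Pool.Agent.H26.AN

open MeasureTheory Metric Set Filter Topology Pool.Agent.H87.SN Pool.Agent.H87.SH Pool.Agent.H87.AX
open Pool.Agent.H22.AN Pool.Agent.H35.SN
open scoped ContDiff RealInnerProductSpace ENNReal

theorem cont_zp {d : ℕ} : Continuous (fun x : E (d + 2) => zp x) := by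
  refine (PiLp.continuous_toLp 2 _).comp (continuous_pi fun i => ?_)
  exact (EuclideanSpace.proj (𝕜 := ℝ) (i.succ.succ : Fin (d + 2))).continuous

theorem norm_split {d : ℕ} (x : E (d + 2)) : ‖x‖ ^ 2 = rho x ^ 2 + ‖zp x‖ ^ 2 := by
  have h1 := norm_sq_sum x
  rw [Fin.sum_univ_succ, Fin.sum_univ_succ] at h1
  have h2 : rho x ^ 2 = x 0 ^ 2 + x 1 ^ 2 := by
    unfold rho
    rw [Real.sq_sqrt (by positivity)]
  have h3 : ‖zp x‖ ^ 2 = ∑ i : Fin d, x i.succ.succ ^ 2 := norm_sq_sum (zp x)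
  have h4 : x (Fin.succ 0) = x 1 := rfl
  rw [h4] at h1
  rw [h1, h2, h3]
  ring

theorem pf_CEN (hCAC : T_CAC) (hMA1 : T_MA1) (hMA2 : T_MA2) (hMA3 : T_MA3) (hTAY : T_TAY)
    (hMUF : T_MUF) : T_CEN := by
  intro d Λ c hΛ hc
  obtain ⟨C1, h10, h1⟩ := hMA1 d
  obtain ⟨C2, h20, h2⟩ := hMA2 d
  obtain ⟨C3, h30, h3⟩ := hMA3 d
  obtain ⟨C4, h40, h4⟩ := hTAY d
  obtain ⟨C5, h50, h5⟩ := hCAC d
  have hsL : 0 ≤ Real.sqrt Λ := Real.sqrt_nonneg _
  set A : ℝ := 8 ^ (d + 2) * (8 * C5 + 1) with hA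
  have hA0 : 0 ≤ A := by positivity
  set B : ℝ := C4 * Real.sqrt Λ with hB
  have hB0 : 0 ≤ B := mul_nonneg h40 hsL
  refine ⟨A * (C1 + C2 + C3) + B + 4 * (B / c), by positivity, ?_⟩
  set C : ℝ := A * (C1 + C2 + C3) + B + 4 * (B / c) with hC
  have hBc : 0 ≤ B / c := by positivity
  intro m G hGD h R hh hh' hR hR' hmb hV1
  have hG := hGD.memG
  have hst := hGD.stat
  obtain ⟨-, -, -, u4, u5, -⟩ := hMUF d m G hG
  set V0 : ℝ := V2 G 1 with hV0
  have hVn : 0 ≤ V0 := setIntegral_nonneg measurableSet_ball fun x _ =>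
    mul_nonneg (sq_nonneg _) (nsq_nonneg _)
  -- the two energies
  have hrint : ∀ S : Set (E (d + 2)), MeasurableSet S → S ⊆ ball 0 1 →
      IntegrableOn (fun x => rho x ^ 2 * nsq (G x)) S := by
    intro S hS hS1
    refine (u5 (fun x => rho x ^ 2) S 1 (cont_rho.pow 2).measurable hS
      (hS1.trans (ball_subset_ball (by norm_num))) fun x hx => ⟨sq_nonneg _, ?_⟩).1
    have e1 := norm_split x
    have e2 := hS1 hx
    rw [mem_ball, dist_zero_right] at e2
    nlinarith [sq_nonneg (‖zp x‖), norm_nonneg x]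
  have hnz : IntegrableOn (fun x => nzs (G x)) (ball (0 : E (d + 2)) 2) := by
    refine Integrable.mono' (nsq_integrable hG) (cont_nzs.comp_aestronglyMeasurable hG.1)
      (Eventually.of_forall fun x => ?_)
    rw [Real.norm_eq_abs, abs_of_nonneg (nzs_nonneg _)]
    have e1 := nsq_split (G x)
    nlinarith [sq_nonneg (‖G x (bv 0)‖), sq_nonneg (‖G x (bv 1)‖)]
  have hEz : Ez G h (1 / 2) ≤ 8 * C5 * V0 := by
    have e1 := h5 m G hG hst (5 / 8) 1 (by norm_num) (by norm_num) (by norm_num)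
    have e2 : Ez G h (1 / 2) ≤ ∫ x in ball (0 : V d) (5 / 8), nzs (G x) := by
      refine setIntegral_mono_set (hnz.mono_set (ball_subset_ball (by norm_num)))
        (Eventually.of_forall fun x => nzs_nonneg _) ?_
      refine HasSubset.Subset.eventuallyLE ?_
      rintro x ⟨hx1, hx2⟩
      rw [mem_ball, dist_zero_right]
      have e3 := norm_split x
      have e4 := rho_nonneg x
      have e5 : rho x < 1 / 8 := by linarith
      have e6 : ‖zp x‖ < 1 / 2 := hx2
      nlinarith [norm_nonneg x, norm_nonneg (zp x)]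
    refine e2.trans (e1.trans ?_)
    rw [← hV0]
    have : C5 / (1 - 5 / 8) ^ 2 ≤ 8 * C5 := by
      norm_num
      linarith
    exact mul_le_mul_of_nonneg_right this hVn
  have hIn : In G h (1 / 2) ≤ (h ^ 2)⁻¹ * V0 := by
    have hms : MeasurableSet {x : V d | h < rho x ∧ rho x < 2 * h ∧ ‖zp x‖ < 1 / 2} := by
      refine ((isOpen_lt continuous_const cont_rho).inter
        ((isOpen_lt cont_rho continuous_const).inter
          (isOpen_lt cont_zp.norm continuous_const))).measurableSet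
    have hsub : {x : V d | h < rho x ∧ rho x < 2 * h ∧ ‖zp x‖ < 1 / 2} ⊆ ball 0 1 := by
      rintro x ⟨-, hx1, hx2⟩
      rw [mem_ball, dist_zero_right]
      have e3 := norm_split x
      have e4 := rho_nonneg x
      have e5 : rho x < 1 / 8 := by linarith
      nlinarith [norm_nonneg x, norm_nonneg (zp x)]
    have e1 : In G h (1 / 2) ≤ ∫ x in {x : V d | h < rho x ∧ rho x < 2 * h ∧ ‖zp x‖ < 1 / 2},
        (h ^ 2)⁻¹ * (rho x ^ 2 * nsq (G x)) := by
      refine setIntegral_mono_on ?_ ((hrint _ hms hsub).const_mul _) hms fun x hx => ?_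
      · exact (u4 _ hms (hsub.trans (ball_subset_ball (by norm_num)))).1
      · have e2 : h ^ 2 ≤ rho x ^ 2 := pow_le_pow_left₀ hh.le hx.1.le 2
        have e3 := nsq_nonneg (G x)
        rw [← mul_assoc]
        have e4 : 1 ≤ (h ^ 2)⁻¹ * rho x ^ 2 := by
          rw [← div_eq_inv_mul, one_le_div (by positivity)]
          exact e2
        exact le_mul_of_one_le_left e3 e4
    refine e1.trans ?_
    rw [integral_const_mul]
    refine mul_le_mul_of_nonneg_left ?_ (by positivity)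
    refine setIntegral_mono_set (hrint _ measurableSet_ball Subset.rfl)
      (Eventually.of_forall fun x => mul_nonneg (sq_nonneg _) (nsq_nonneg _))
      (HasSubset.Subset.eventuallyLE hsub)
  have hsum : Ez G h (1 / 2) + In G h (1 / 2) ≤ (8 * C5 + 1) * (h ^ 2)⁻¹ * V0 := by
    have e1 : 1 ≤ (h ^ 2)⁻¹ := by
      rw [one_le_inv₀ (by positivity)]
      nlinarith
    have e2 : 8 * C5 * V0 ≤ 8 * C5 * V0 * (h ^ 2)⁻¹ :=
      le_mul_of_one_le_right (by positivity) e1
    nlinarith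
  have hsum0 : 0 ≤ Ez G h (1 / 2) + In G h (1 / 2) := by
    refine add_nonneg (integral_nonneg fun x => nzs_nonneg _) (integral_nonneg fun x => ?_)
    exact nsq_nonneg _
  have hkey : ∀ K : ℝ, 0 ≤ K → K / ((h / 8) ^ (d + 2) * h) * (Ez G h (1 / 2) + In G h (1 / 2)) ≤
      A * K / h ^ (d + 5) * V0 := by
    intro K hK
    have e1 : K / ((h / 8) ^ (d + 2) * h) * (Ez G h (1 / 2) + In G h (1 / 2)) ≤
        K / ((h / 8) ^ (d + 2) * h) * ((8 * C5 + 1) * (h ^ 2)⁻¹ * V0) :=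
      mul_le_mul_of_nonneg_left hsum (by positivity)
    refine e1.trans (le_of_eq ?_)
    rw [hA, div_pow]
    have e2 : h ^ (d + 5) = h ^ (d + 2) * h ^ 3 := by ring
    rw [e2]
    field_simp
  have hh8 : 0 < h / 8 := by positivity
  set mb : ℝ := ms G h 0 (1 / 16) with hmbd
  have hmb0 : 0 < mb := lt_of_lt_of_le hc hmb
  obtain ⟨D0, d1, d2, d3⟩ := h4 m G Λ hGD h hh (by linarith) 0 (by norm_num)
  obtain ⟨D1, f1, f2, f3⟩ := h4 m G Λ hGD h hh (by linarith) 1 (by norm_num)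
  rw [← hV0, Real.sqrt_mul hΛ.le, ← mul_assoc, ← hB] at d1 d2 f1 f2
  have hsV := Real.sqrt_nonneg V0
  refine ⟨mo G h 0 0 (1 / 16) / mb, mo G h 1 0 (1 / 16) / mb, mb⁻¹ • D0, mb⁻¹ • D1, ?_, ?_⟩
  · have g1 : ∀ t : ℝ, |t| ≤ B * Real.sqrt V0 → |t / mb| ≤ B / c * Real.sqrt V0 := by
      intro t ht
      rw [abs_div, abs_of_pos hmb0, div_mul_eq_mul_div]
      exact div_le_div₀ (by positivity) ht hc hmb
    have g2 : ∀ D : E d, ‖D‖ ≤ B * Real.sqrt V0 → ‖mb⁻¹ • D‖ ≤ B / c * Real.sqrt V0 := by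
      intro D hD
      rw [norm_smul, norm_inv, Real.norm_eq_abs, abs_of_pos hmb0, ← div_eq_inv_mul,
        div_mul_eq_mul_div]
      exact div_le_div₀ (by positivity) hD hc hmb
    have k1 := g1 _ d1
    have k2 := g1 _ f1
    have k3 := g2 _ d2
    have k4 := g2 _ f2
    have k5 : 4 * (B / c) * Real.sqrt V0 ≤ C * Real.sqrt V0 := by
      refine mul_le_mul_of_nonneg_right ?_ hsV
      rw [hC]
      have : 0 ≤ A * (C1 + C2 + C3) := by positivity
      linarith
    linarith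
  · have hCV : ∀ K : ℝ, K ≤ C1 + C2 + C3 → A * K / h ^ (d + 5) * V0 ≤
        C / h ^ (d + 5) * V0 := by
      intro K hK
      refine mul_le_mul_of_nonneg_right ?_ hVn
      refine div_le_div_of_nonneg_right ?_ (by positivity)
      have := mul_le_mul_of_nonneg_left hK hA0
      rw [hC]
      linarith
    have hrest : 0 ≤ C * R ^ 2 * Real.sqrt V0 := by
      have : 0 ≤ C := by rw [hC]; positivity
      positivity
    have hBR : ∀ z₀ : E d, ‖z₀‖ ≤ R → C4 * ‖z₀‖ ^ 2 * Real.sqrt (Λ * V0) ≤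
        C * R ^ 2 * Real.sqrt V0 := by
      intro z₀ hz
      rw [Real.sqrt_mul hΛ.le]
      have e1 : ‖z₀‖ ^ 2 ≤ R ^ 2 := pow_le_pow_left₀ (norm_nonneg _) hz 2
      have e2 : B ≤ C := by
        rw [hC]
        have : 0 ≤ A * (C1 + C2 + C3) := by positivity
        linarith
      calc C4 * ‖z₀‖ ^ 2 * (Real.sqrt Λ * Real.sqrt V0) = B * ‖z₀‖ ^ 2 * Real.sqrt V0 := by
            rw [hB]
            ring
        _ ≤ C * R ^ 2 * Real.sqrt V0 := by
            refine mul_le_mul_of_nonneg_right ?_ hsV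
            exact mul_le_mul e2 e1 (sq_nonneg _) (hB0.trans e2)
    have hmo : ∀ (j : Fin (d + 2)) (D : E d), (j : ℕ) < 2 →
        (∀ z₀ : E d, ‖z₀‖ ≤ 1 / 4 → |mo G h j z₀ (1 / 16) - mo G h j 0 (1 / 16) - ⟪D, z₀⟫| ≤
          C4 * ‖z₀‖ ^ 2 * Real.sqrt (Λ * V0)) →
        ∀ (z₀ : E d) (t : ℝ), h / 8 ≤ t → t ≤ 1 / 16 → ‖z₀‖ ≤ R →
          |mo G h j z₀ t - mb * (mo G h j 0 (1 / 16) / mb + ⟪mb⁻¹ • D, z₀⟫)| ≤
            C / h ^ (d + 5) * V0 + C * R ^ 2 * Real.sqrt V0 := by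
      intro j D hj hD z₀ t ht ht' hz
      have e1 := h2 m G hG hst h (1 / 2) (h / 8) hh (by linarith) hh8 (by norm_num) z₀ t (1 / 16)
        j ht (by linarith) (by linarith) (by linarith) hj
      have e2 := (e1.trans (hkey C2 h20)).trans (hCV C2 (by linarith))
      have e3 := (hD z₀ (by linarith)).trans (hBR z₀ hz)
      have e4 : mb * (mo G h j 0 (1 / 16) / mb + ⟪mb⁻¹ • D, z₀⟫) =
          mo G h j 0 (1 / 16) + ⟪D, z₀⟫ := by
        rw [real_inner_smul_left]
        field_simp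
      rw [e4]
      have e5 : mo G h j z₀ t - (mo G h j 0 (1 / 16) + ⟪D, z₀⟫) =
          (mo G h j z₀ t - mo G h j z₀ (1 / 16)) +
          (mo G h j z₀ (1 / 16) - mo G h j 0 (1 / 16) - ⟪D, z₀⟫) := by ring
      rw [e5]
      exact (abs_add_le _ _).trans (add_le_add e2 e3)
    refine ⟨?_, ?_, ?_⟩
    · intro z₀ t ht ht' hz
      have e1 := h1 m G hG hst h (1 / 2) (h / 8) hh (by linarith) hh8 (by norm_num) z₀ 0 t (1 / 16)
        ht (by linarith) (by linarith) (by rw [norm_zero]; norm_num)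
      have e2 := (e1.trans (hkey C1 h10)).trans (hCV C1 (by linarith))
      linarith
    · intro z₀ t ht ht' hz
      exact ⟨hmo 0 D0 (by norm_num) d3 z₀ t ht ht' hz, hmo 1 D1 (by norm_num) f3 z₀ t ht ht' hz⟩
    · intro z₀ t ht ht' hz a
      have e1 := h3 m G hG hst h (1 / 2) (h / 8) hh (by linarith) hh8 (by norm_num) z₀ t a
        ht (by linarith)
      have e2 := (e1.trans (hkey C3 h30)).trans (hCV C3 (by linarith))
      linarith

end Pool.Agent.H26.AN
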